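import Pool.Agent.Helper37.KDB.Extra
import Pool.Agent.Helper37.KDB.St.D1
import Pool.Agent.Helper37.KDB.St.D2
import Pool.Agent.Helper37.KDB.St.D10
import Pool.Agent.Helper37.KDB.St.D11
import Pool.Agent.Helper37.KDB.St.D12
import Pool.Agent.Helper37.KDB.St.P5

/-! Project KDB, piece D13: comparison of two realisations over one listed jump. -/

set_option autoImplicit false

namespace KDB.I.D13

open MeasureTheory KDB
open scoped ENNReal

variable (p : Par)

lemma ell_ge (hp : p.Ok) : (1000 : ℝ) ≤ p.ell := by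
  have h1 : (1000 : ℝ) ≤ p.L := by exact_mod_cast hp.hL
  have h2 : (p.L : ℝ) ≤ (p.L : ℝ) ^ p.q :=
    le_self_pow₀ (by linarith) (by have := hp.hq; omega)
  have h3 : (p.ell : ℝ) = (p.L : ℝ) ^ p.q := by unfold Par.ell; push_cast; rfl
  rw [h3]; linarith

lemma rho_pos (hp : p.Ok) (k : ℕ) : 0 < p.rho k := by
  unfold Par.rho
  exact pow_pos (by have := ell_ge p hp; linarith) _

lemma xi_pos (hp : p.Ok) (k : ℕ) : 0 < p.xi k := by
  rw [xi_eq]
  have h1 : (1000 : ℝ) ≤ p.L := by exact_mod_cast hp.hL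
  exact mul_pos (rho_pos p hp k) (pow_pos (by linarith) _)

lemma rho_add (m k : ℕ) : p.rho (m + k) = p.rho m * (p.ell : ℝ) ^ k := by
  unfold Par.rho; rw [pow_add]

lemma h_pos (hp : p.Ok) : 0 < p.h := by
  unfold Par.h
  have h1 : (1000 : ℝ) ≤ p.L := by exact_mod_cast hp.hL
  have h2 : (1 : ℝ) ≤ p.H := by exact_mod_cast hp.hH
  have h3 : (0 : ℝ) < (p.L : ℝ) ^ p.q := pow_pos (by linarith) _
  positivity

lemma tau_pos (hp : p.Ok) (k : ℕ) : (0 : ℝ) < p.tau k := by
  unfold Par.tau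
  have h1 : 0 < p.L := by have := hp.hL; omega
  have h2 : 0 < p.H := by have := hp.hH; omega
  have : 0 < p.H * p.L ^ (k + p.q) := Nat.mul_pos h2 (pow_pos h1 _)
  exact_mod_cast this

lemma sz_nonneg (hp : p.Ok) (z : Nz p.d) : 0 ≤ p.sz z := by
  unfold Par.sz
  split_ifs
  · exact le_rfl
  · exact norm_nonneg _
  · have h1 : (1000 : ℝ) ≤ p.L := by exact_mod_cast hp.hL
    exact mul_nonneg (by linarith) (rho_pos p hp _).le

lemma nse_nonneg (hp : p.Ok) (om : ℕ → Nz p.d) (m a c : ℕ) : 0 ≤ p.nse om m a c := by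
  unfold Par.nse
  refine Finset.sum_nonneg fun j _ => ?_
  split_ifs
  · exact sz_nonneg p hp _
  · exact le_rfl

lemma vel_succ (om : ℕ → Nz p.d) (e : ℕ) : (p.run om (e + 1)).2 = (p.run om e).2 +
    p.jump e (om e) (p.run om (e + 1)).1 (p.run om e).2 := rfl

lemma Pos_eq (om : ℕ → Nz p.d) (g e : ℕ) :
    (p.run om (e + 1)).1 - (p.h * ((e : ℝ) + 1 - g)) • (p.run om e).2 = p.Pos om g e := by
  unfold Par.Pos
  show ((p.run om e).1 + p.h • (p.run om e).2) - (p.h * ((e : ℝ) + 1 - g)) • (p.run om e).2 = _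
  have e1 : p.h * ((e : ℝ) + 1 - g) = p.h + p.h * ((e : ℝ) - g) := by ring
  rw [e1, add_smul]
  abel

/-- size of a listed jump -/
lemma jump_size (hp : p.Ok) (j : ℕ) (z : Nz p.d) (hz : p.Valid j z) (m ko : ℕ)
    (hlv : p.lv z = m + ko + 1) (x v : V p.d) :
    ‖p.jump j z x v‖ ≤ p.L * (p.rho m * (p.ell : ℝ) ^ (ko + 1)) := by
  have h1 : (1000 : ℝ) ≤ p.L := by exact_mod_cast hp.hL
  refine (jump_le p hp j z hz x v).trans ?_
  have hpos : 0 ≤ p.rho m * (p.ell : ℝ) ^ (ko + 1) := by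
    rw [← rho_add]; exact (rho_pos p hp _).le
  unfold Par.sz
  unfold Par.lv at hlv
  split_ifs at hlv ⊢ with h0 h2
  · obtain ⟨-, h3, -⟩ := kl_spec p hp z.w (hz.2.2.1 h2)
    rw [hlv, show m + ko + 1 = m + (ko + 1) by omega, rho_add] at h3
    nlinarith
  · rw [hlv, show m + ko + 1 = m + (ko + 1) by omega, rho_add]

lemma rad_le (hp : p.Ok) (m ko : ℕ) :
    p.rad (m + ko) ≤ p.rho m * (p.ell : ℝ) ^ (ko - p.b) := by
  have he := ell_ge p hp
  have he0 : (0 : ℝ) < p.ell := by linarith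
  unfold Par.rad Par.rho
  rw [← zpow_natCast, ← zpow_natCast, ← zpow_add₀ he0.ne']
  apply zpow_le_zpow_right₀ (by linarith)
  push_cast
  omega

/-- the velocities after a listed jump are close, before decoding -/
lemma vel_before (hp : p.Ok) (om om' : ℕ → Nz p.d) (hv : ∀ j, p.Valid j (om j))
    (hv' : ∀ j, p.Valid j (om' j)) (m g e e' ko N : ℕ)
    (hge : g ≤ e) (heg : e < g + p.tau m) (hge' : g ≤ e') (heg' : e' < g + p.tau m)
    (hlv : p.lv (om e) = m + ko + 1) (hlv' : p.lv (om' e') = m + ko + 1)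
    (hk : (om e).lab = 1 ↔ (om' e').lab = 1)
    (hfA : (om e).lab ≠ 1 → (p.inA ((om e).lab - 2) e ↔ p.inA ((om' e').lab - 2) e'))
    (hfs : (om e).lab ≠ 1 → (om e).sb = (om' e').sb)
    (hsl : |(e : ℝ) - e'| * (p.L * (p.ell : ℝ) ^ (ko + 1)) ≤ p.tau m)
    (C : ℝ) (hC : 1 ≤ C) (hN : 12 * C + 12 ≤ N)
    (hdv : ‖(p.run om e).2 - (p.run om' e').2‖ ≤ C * p.rho m)
    (hdP : ‖p.Pos om g e - p.Pos om' g e'‖ ≤ C * p.xi m)
    (hrA : (om e).lab ≠ 1 → Par.emd N (p.rA ((om e).lab - 2) e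
        ((p.run om (e + 1)).1 - p.vs • (om e).y1) ((p.run om e).2 - p.vs • (om e).y2)) =
      Par.emd N (p.rA ((om' e').lab - 2) e'
        ((p.run om' (e' + 1)).1 - p.vs • (om' e').y1)
        ((p.run om' e').2 - p.vs • (om' e').y2)))
    (hrm : (om e).lab ≠ 1 → Par.emd N (p.rm ((om e).lab - 2) e
        ((p.run om (e + 1)).1 - p.vs • (om e).y1) ((p.run om e).2 - p.vs • (om e).y2)) =
      Par.emd N (p.rm ((om' e').lab - 2) e'
        ((p.run om' (e' + 1)).1 - p.vs • (om' e').y1)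
        ((p.run om' e').2 - p.vs • (om' e').y2))) :
    ‖(p.run om (e + 1)).2 - (p.run om' (e' + 1)).2‖ / p.rho m + 1 <
      N * (p.ell : ℝ) ^ (if (om e).lab = 1 then ko + 1 else ko - p.b) := by
  have hrho := rho_pos p hp m
  have hell := ell_ge p hp
  have hdec : ‖(p.run om (e + 1)).2 - (p.run om' (e' + 1)).2‖ ≤ C * p.rho m +
      ‖p.jump e (om e) (p.run om (e + 1)).1 (p.run om e).2 -
        p.jump e' (om' e') (p.run om' (e' + 1)).1 (p.run om' e').2‖ := by
    rw [vel_succ, vel_succ]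
    refine le_trans ?_ (add_le_add hdv le_rfl)
    refine le_trans (le_of_eq ?_) (norm_add_le _ _)
    congr 1
    abel
  by_cases h1 : (om e).lab = 1
  · have h1' := hk.1 h1
    rw [if_pos h1]
    have hj : p.jump e (om e) (p.run om (e + 1)).1 (p.run om e).2 = (om e).w := by
      unfold Par.jump
      rw [if_neg (by omega), if_pos h1]
    have hj' : p.jump e' (om' e') (p.run om' (e' + 1)).1 (p.run om' e').2 = (om' e').w := by
      unfold Par.jump
      rw [if_neg (by omega), if_pos h1']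
    have hl : p.kl (om e).w = m + (ko + 1) := by
      unfold Par.lv at hlv
      rw [if_neg (by omega), if_pos h1] at hlv
      omega
    have hl' : p.kl (om' e').w = m + (ko + 1) := by
      unfold Par.lv at hlv'
      rw [if_neg (by omega), if_pos h1'] at hlv'
      omega
    obtain ⟨-, h3, -⟩ := kl_spec p hp (om e).w ((hv e).2.2.1 h1)
    obtain ⟨-, h3', -⟩ := kl_spec p hp (om' e').w ((hv' e').2.2.1 h1')
    rw [hl, rho_add] at h3
    rw [hl', rho_add] at h3'
    rw [hj, hj'] at hdec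
    have h4 : ‖(om e).w - (om' e').w‖ ≤ 2 * (p.rho m * (p.ell : ℝ) ^ (ko + 1)) :=
      (norm_sub_le _ _).trans (by linarith)
    have h5 : ‖(p.run om (e + 1)).2 - (p.run om' (e' + 1)).2‖ / p.rho m ≤
        C + 2 * (p.ell : ℝ) ^ (ko + 1) := by
      rw [div_le_iff₀ hrho]
      nlinarith only [hdec, h4]
    have h6 : (1 : ℝ) ≤ (p.ell : ℝ) ^ (ko + 1) := one_le_pow₀ (by linarith)
    have h7 : C + 2 * (p.ell : ℝ) ^ (ko + 1) + 1 < (12 * C + 12) * (p.ell : ℝ) ^ (ko + 1) := by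
      nlinarith only [hC, h6]
    have h8 : (12 * C + 12) * (p.ell : ℝ) ^ (ko + 1) ≤ N * (p.ell : ℝ) ^ (ko + 1) :=
      mul_le_mul_of_nonneg_right hN (by linarith)
    linarith
  · have h1' : (om' e').lab ≠ 1 := fun h => h1 (hk.2 h)
    rw [if_neg h1]
    have h0 : (om e).lab ≠ 0 := by
      intro h0
      unfold Par.lv at hlv
      rw [if_pos h0] at hlv
      omega
    have h0' : (om' e').lab ≠ 0 := by
      intro h0
      unfold Par.lv at hlv'
      rw [if_pos h0] at hlv'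
      omega
    have hlab : (om e).lab - 2 = m + ko := by
      unfold Par.lv at hlv
      rw [if_neg h0, if_neg h1] at hlv
      omega
    have hlab' : (om' e').lab - 2 = m + ko := by
      unfold Par.lv at hlv'
      rw [if_neg h0', if_neg h1'] at hlv'
      omega
    have hV := hv e
    have hV' := hv' e'
    have hkn : m + ko < p.n := by
      have := hV.1
      omega
    have hw := hV.2.1 (by omega)
    have hw' := hV'.2.1 (by omega)
    have hfA' := hfA h1
    have hrA' := hrA h1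
    have hrm' := hrm h1
    rw [hlab] at hw hrA' hrm' hfA'
    rw [hlab'] at hw' hrA' hrm' hfA'
    have hAB : (p.inA (m + ko) e ∧ p.inA (m + ko) e') ∨
        (¬ p.inA (m + ko) e ∧ ¬ p.inA (m + ko) e') := by
      by_cases hA : p.inA (m + ko) e
      · exact Or.inl ⟨hA, hfA'.1 hA⟩
      · exact Or.inr ⟨hA, fun h => hA (hfA'.2 h)⟩
    have hsame := ring_same p hp (m + ko) m g e e' N (by omega) hkn C hC hN hge hge' heg heg' hAB
      (p.run om (e + 1)).1 (p.run om e).2 (p.run om' (e' + 1)).1 (p.run om' e').2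
      (om e).y1 (om e).y2 (om' e').y1 (om' e').y2 hV.2.2.2.2.1 hV.2.2.2.2.2 hV'.2.2.2.2.1
      hV'.2.2.2.2.2 hdv (by rw [Pos_eq, Pos_eq]; exact hdP) hrA' hrm'
    have hwst := wst_close p hp (m + ko) m g e e' (by omega) hkn hge hge' heg heg' hAB
      (by rw [show m + ko - m = ko by omega]; exact hsl) _ _ _ _ hsame.2
    have hj : p.jump e (om e) (p.run om (e + 1)).1 (p.run om e).2 =
        (om e).sg • (p.wst (m + ko) e ((p.run om (e + 1)).1 - p.vs • (om e).y1)
          ((p.run om e).2 - p.vs • (om e).y2) + p.rad (m + ko) • (om e).u) := by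
      unfold Par.jump
      rw [if_neg h0, if_neg h1, hlab, if_pos ⟨hkn, hw⟩]
    have hj' : p.jump e' (om' e') (p.run om' (e' + 1)).1 (p.run om' e').2 =
        (om' e').sg • (p.wst (m + ko) e' ((p.run om' (e' + 1)).1 - p.vs • (om' e').y1)
          ((p.run om' e').2 - p.vs • (om' e').y2) + p.rad (m + ko) • (om' e').u) := by
      unfold Par.jump
      rw [if_neg h0', if_neg h1', hlab', if_pos ⟨hkn, hw'⟩]
    have hsg : (om' e').sg = (om e).sg := by
      have := hfs h1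
      unfold Nz.sb at this
      unfold Nz.sg
      rw [this]
    have hsg1 : ‖(om e).sg‖ = 1 := by
      unfold Nz.sg
      split_ifs
      · exact norm_one
      · rw [norm_neg, norm_one]
    rw [hj, hj', hsg, ← smul_sub, norm_smul, hsg1, one_mul] at hdec
    have hrad0 : 0 ≤ p.rad (m + ko) := by
      unfold Par.rad
      exact zpow_nonneg (by linarith) _
    have h4 : ‖(p.wst (m + ko) e ((p.run om (e + 1)).1 - p.vs • (om e).y1)
          ((p.run om e).2 - p.vs • (om e).y2) + p.rad (m + ko) • (om e).u) -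
        (p.wst (m + ko) e' ((p.run om' (e' + 1)).1 - p.vs • (om' e').y1)
          ((p.run om' e').2 - p.vs • (om' e').y2) + p.rad (m + ko) • (om' e').u)‖ ≤
        2 * p.rho m + 2 * p.rad (m + ko) := by
      rw [add_sub_add_comm]
      refine (norm_add_le _ _).trans (add_le_add hwst ?_)
      rw [← smul_sub, norm_smul, Real.norm_of_nonneg hrad0]
      have : ‖(om e).u - (om' e').u‖ ≤ 2 :=
        (norm_sub_le _ _).trans (by linarith [hV.2.2.2.1, hV'.2.2.2.1])
      nlinarith only [hrad0, this]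
    have hrad := rad_le p hp m ko
    have h5 : ‖(p.run om (e + 1)).2 - (p.run om' (e' + 1)).2‖ / p.rho m ≤
        C + 2 + 2 * (p.ell : ℝ) ^ (ko - p.b) := by
      rw [div_le_iff₀ hrho]
      nlinarith only [hdec, h4, hrad]
    have h6 : (1 : ℝ) ≤ (p.ell : ℝ) ^ (ko - p.b) := one_le_pow₀ (by linarith)
    have h7 : C + 2 + 2 * (p.ell : ℝ) ^ (ko - p.b) + 1 <
        (12 * C + 12) * (p.ell : ℝ) ^ (ko - p.b) := by
      nlinarith only [hC, h6]
    have h8 : (12 * C + 12) * (p.ell : ℝ) ^ (ko - p.b) ≤ N * (p.ell : ℝ) ^ (ko - p.b) :=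
      mul_le_mul_of_nonneg_right hN (by linarith)
    linarith

/-- ENTRY: one listed jump -/
theorem entry_close (hp : p.Ok) (om om' : ℕ → Nz p.d) (hv : ∀ j, p.Valid j (om j))
    (hv' : ∀ j, p.Valid j (om' j)) (m g a e a' e' : ℕ) (hm : m < p.n)
    (hga : g ≤ a) (hae : a ≤ e) (heg : e < g + p.tau m)
    (hga' : g ≤ a') (hae' : a' ≤ e') (heg' : e' < g + p.tau m)
    (hun : ∀ j ∈ Finset.Ico a e, p.lv (om j) ≤ m) (hl : m < p.lv (om e))
    (hun' : ∀ j ∈ Finset.Ico a' e', p.lv (om' j) ≤ m) (hl' : m < p.lv (om' e'))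
    (hent : p.ent om m g a e = p.ent om' m g a' e')
    (h1 : ‖(p.run om a).2 - (p.run om' a').2‖ ≤ p.rho m)
    (h2 : ‖p.Pos om g a - p.Pos om' g a'‖ ≤ p.xi m) :
    ‖(p.run om (e + 1)).2 - (p.run om' (e' + 1)).2‖ ≤ p.rho m ∧
      ‖p.Pos om g (e + 1) - p.Pos om' g (e' + 1)‖ ≤ p.xi m := by
  have hrho := rho_pos p hp m
  have hxi := xi_pos p hp m
  have hell := ell_ge p hp
  have hL : (1000 : ℝ) ≤ p.L := by exact_mod_cast hp.hL
  have htau := tau_pos p hp m
  have hh := h_pos p hp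
  have hht := h_tau p hp m
  have hxr := xi_eq p m
  unfold Par.ent at hent
  simp only [Prod.mk.injEq] at hent
  obtain ⟨hk, hko, hfA, hfs, hslot, hnc, hrA, hrm, hfv, hfx⟩ := hent
  rw [← hnc] at hrA hrm hfv hfx
  set nc := Par.ncl (p.nse om m a e / p.rho m) with hncdef
  obtain ⟨ko, hkoe⟩ : ∃ ko, p.lv (om e) = m + ko + 1 := ⟨p.lv (om e) - 1 - m, by omega⟩
  have hko1 : p.lv (om e) - 1 - m = ko := by omega
  have hko2 : p.lv (om' e') - 1 - m = ko := by omega
  have hkoe' : p.lv (om' e') = m + ko + 1 := by omega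
  have hk' : (om e).lab = 1 ↔ (om' e').lab = 1 := decide_eq_decide.1 hk
  rw [hko1, hko2] at hslot hfv
  -- noise
  have hD := nse_nonneg p hp om m a e
  have hD' := nse_nonneg p hp om' m a' e'
  have hn1 : p.nse om m a e ≤ 2 ^ nc * p.rho m := by
    have := (ncl_spec (p.nse om m a e / p.rho m) (div_nonneg hD hrho.le)).1
    rwa [div_le_iff₀ hrho] at this
  have hn2 : p.nse om' m a' e' ≤ 2 ^ nc * p.rho m := by
    have := (ncl_spec (p.nse om' m a' e' / p.rho m) (div_nonneg hD' hrho.le)).1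
    rwa [div_le_iff₀ hrho, ← hnc] at this
  obtain ⟨hv1, hP1⟩ := noise_le p hp om hv m g a e hga hae heg.le hun
  obtain ⟨hv2, hP2⟩ := noise_le p hp om' hv' m g a' e' hga' hae' heg'.le hun'
  have hLm : (0 : ℝ) < (p.L : ℝ) ^ m := pow_pos (by linarith only [hL]) _
  have hx1 : p.nse om m a e * (p.L : ℝ) ^ m ≤ 2 ^ nc * p.xi m := by
    rw [hxr, ← mul_assoc]
    exact mul_le_mul_of_nonneg_right hn1 hLm.le
  have hx2 : p.nse om' m a' e' * (p.L : ℝ) ^ m ≤ 2 ^ nc * p.xi m := by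
    rw [hxr, ← mul_assoc]
    exact mul_le_mul_of_nonneg_right hn2 hLm.le
  have h2nc : (1 : ℝ) ≤ 2 ^ nc := one_le_pow₀ (by norm_num)
  set C : ℝ := 1 + 2 * 2 ^ nc with hCdef
  have hC : 1 ≤ C := by rw [hCdef]; linarith only [h2nc]
  set N : ℕ := 64 * 2 ^ nc with hNdef
  have hNr : (N : ℝ) = 64 * 2 ^ nc := by rw [hNdef]; push_cast; rfl
  have hN : 12 * C + 12 ≤ N := by rw [hNr, hCdef]; linarith only [h2nc]
  have hdv : ‖(p.run om e).2 - (p.run om' e').2‖ ≤ C * p.rho m := by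
    have e1 : (p.run om e).2 - (p.run om' e').2 = ((p.run om e).2 - (p.run om a).2) +
        ((p.run om a).2 - (p.run om' a').2) - ((p.run om' e').2 - (p.run om' a').2) := by abel
    rw [e1]
    refine (norm_sub_le _ _).trans ?_
    have := norm_add_le ((p.run om e).2 - (p.run om a).2) ((p.run om a).2 - (p.run om' a').2)
    rw [hCdef]
    linarith only [h1, hn1, hn2, hv1, hv2, this]
  have hdP : ‖p.Pos om g e - p.Pos om' g e'‖ ≤ C * p.xi m := by
    have e1 : p.Pos om g e - p.Pos om' g e' = (p.Pos om g e - p.Pos om g a) +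
        (p.Pos om g a - p.Pos om' g a') - (p.Pos om' g e' - p.Pos om' g a') := by abel
    rw [e1]
    refine (norm_sub_le _ _).trans ?_
    have := norm_add_le (p.Pos om g e - p.Pos om g a) (p.Pos om g a - p.Pos om' g a')
    rw [hCdef]
    linarith only [h2, hP1, hP2, hx1, hx2, this]
  -- slot
  have hS : (0 : ℝ) < p.L * (p.ell : ℝ) ^ (ko + 1) :=
    mul_pos (by linarith only [hL]) (pow_pos (by linarith only [hell]) _)
  have hge : g ≤ e := hga.trans hae
  have hge' : g ≤ e' := hga'.trans hae'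
  have hger : (g : ℝ) ≤ e := by exact_mod_cast hge
  have hger' : (g : ℝ) ≤ e' := by exact_mod_cast hge'
  have hsl : |(e : ℝ) - e'| * (p.L * (p.ell : ℝ) ^ (ko + 1)) ≤ p.tau m := by
    set A : ℝ := ((e : ℝ) - g) * (p.L * (p.ell : ℝ) ^ (ko + 1)) / p.tau m with hA
    set A' : ℝ := ((e' : ℝ) - g) * (p.L * (p.ell : ℝ) ^ (ko + 1)) / p.tau m with hA'
    have hA0 : 0 ≤ A := div_nonneg (mul_nonneg (by linarith only [hger]) hS.le) htau.le
    have hA0' : 0 ≤ A' := div_nonneg (mul_nonneg (by linarith only [hger']) hS.le) htau.le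
    have f1 := Nat.floor_le hA0
    have f2 := Nat.lt_floor_add_one A
    have f3 := Nat.floor_le hA0'
    have f4 := Nat.lt_floor_add_one A'
    rw [hslot] at f1 f2
    have f5 : |A - A'| ≤ 1 := by
      rw [abs_le]
      constructor <;> linarith only [f1, f4, f2, f3]
    have f6 : A - A' = ((e : ℝ) - e') * (p.L * (p.ell : ℝ) ^ (ko + 1)) / p.tau m := by
      rw [hA, hA']; ring
    rw [f6, abs_div, abs_mul, abs_of_pos htau, abs_of_pos hS, div_le_one htau] at f5
    exact f5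
  -- velocities
  have hvb := vel_before p hp om om' hv hv' m g e e' ko N hge heg hge' heg' hkoe hkoe' hk'
    (fun h => by
      rw [if_neg h, if_neg (fun h' => h (hk'.2 h'))] at hfA
      exact decide_eq_decide.1 hfA)
    (fun h => by
      rw [if_neg h, if_neg (fun h' => h (hk'.2 h'))] at hfs
      exact hfs)
    hsl C hC hN hdv hdP
    (fun h => by
      rw [if_neg h, if_neg (fun h' => h (hk'.2 h'))] at hrA
      exact hrA)
    (fun h => by
      rw [if_neg h, if_neg (fun h' => h (hk'.2 h'))] at hrm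
      exact hrm)
  have huu : (if (om' e').lab = 1 then ko + 1 else ko - p.b) =
      if (om e).lab = 1 then ko + 1 else ko - p.b := by
    by_cases h : (om e).lab = 1
    · rw [if_pos h, if_pos (hk'.1 h)]
    · rw [if_neg h, if_neg (fun h' => h (hk'.2 h'))]
  rw [huu] at hfv
  have hvel : ‖(p.run om (e + 1)).2 - (p.run om' (e' + 1)).2‖ ≤ p.rho m := by
    refine fl_close _ (p.rho m) hrho _ _ hfv ?_
    push_cast
    exact hvb
  refine ⟨hvel, ?_⟩
  -- positions
  have hcast : ((e : ℝ) + 1 - g) = (((e + 1 : ℕ) : ℝ) - g) := by push_cast; ring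
  have hcast' : ((e' : ℝ) + 1 - g) = (((e' + 1 : ℕ) : ℝ) - g) := by push_cast; ring
  have hfx' : Par.emd N (Par.fl (p.xi m) (p.Pos om g (e + 1))) =
      Par.emd N (Par.fl (p.xi m) (p.Pos om' g (e' + 1))) := by
    unfold Par.Pos
    rw [← hcast, ← hcast']
    exact hfx
  refine fl_close N (p.xi m) hxi _ _ hfx' ?_
  rw [Pos_succ p om g e, Pos_succ p om' g e']
  set δ := p.jump e (om e) (p.run om (e + 1)).1 (p.run om e).2 with hδ
  set δ' := p.jump e' (om' e') (p.run om' (e' + 1)).1 (p.run om' e').2 with hδ'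
  have hδδ : ‖δ - δ'‖ ≤ (C + 1) * p.rho m := by
    have e1 : δ - δ' = ((p.run om (e + 1)).2 - (p.run om' (e' + 1)).2) -
        ((p.run om e).2 - (p.run om' e').2) := by
      rw [vel_succ p om e, vel_succ p om' e', ← hδ, ← hδ']
      abel
    rw [e1]
    refine (norm_sub_le _ _).trans ?_
    linarith only [hdv, hvel]
  have hδ'' : ‖δ'‖ ≤ p.L * (p.rho m * (p.ell : ℝ) ^ (ko + 1)) :=
    jump_size p hp e' (om' e') (hv' e') m ko hkoe' _ _
  have e2 : (p.Pos om g e - (p.h * ((e : ℝ) + 1 - g)) • δ) -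
      (p.Pos om' g e' - (p.h * ((e' : ℝ) + 1 - g)) • δ') =
      (p.Pos om g e - p.Pos om' g e') - (p.h * ((e : ℝ) + 1 - g)) • (δ - δ') -
        (p.h * ((e : ℝ) - e')) • δ' := by
    have e3 : p.h * ((e' : ℝ) + 1 - g) = p.h * ((e : ℝ) + 1 - g) - p.h * ((e : ℝ) - e') := by ring
    rw [e3, sub_smul, smul_sub]
    abel
  rw [e2]
  have hθ0 : 0 ≤ p.h * ((e : ℝ) + 1 - g) := mul_nonneg hh.le (by linarith only [hger])
  have hθ1 : p.h * ((e : ℝ) + 1 - g) ≤ (p.L : ℝ) ^ m := by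
    rw [← hht]
    apply mul_le_mul_of_nonneg_left _ hh.le
    have : (e : ℝ) + 1 ≤ g + p.tau m := by exact_mod_cast heg
    linarith only [this]
  have b1 : ‖(p.h * ((e : ℝ) + 1 - g)) • (δ - δ')‖ ≤ (C + 1) * p.xi m := by
    rw [norm_smul, Real.norm_of_nonneg hθ0, hxr]
    calc p.h * ((e : ℝ) + 1 - g) * ‖δ - δ'‖ ≤ (p.L : ℝ) ^ m * ((C + 1) * p.rho m) :=
          mul_le_mul hθ1 hδδ (norm_nonneg _) hLm.le
      _ = (C + 1) * (p.rho m * (p.L : ℝ) ^ m) := by ring
  have b2 : ‖(p.h * ((e : ℝ) - e')) • δ'‖ ≤ p.xi m := by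
    rw [norm_smul, Real.norm_eq_abs, abs_mul, abs_of_pos hh, hxr]
    calc p.h * |(e : ℝ) - e'| * ‖δ'‖ ≤
          p.h * |(e : ℝ) - e'| * (p.L * (p.rho m * (p.ell : ℝ) ^ (ko + 1))) :=
          mul_le_mul_of_nonneg_left hδ'' (mul_nonneg hh.le (abs_nonneg _))
      _ = p.h * p.rho m * (|(e : ℝ) - e'| * (p.L * (p.ell : ℝ) ^ (ko + 1))) := by ring
      _ ≤ p.h * p.rho m * p.tau m :=
          mul_le_mul_of_nonneg_left hsl (mul_nonneg hh.le hrho.le)
      _ = p.rho m * (p.L : ℝ) ^ m := by rw [← hht]; ring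
  have b3 : ‖(p.Pos om g e - p.Pos om' g e') - (p.h * ((e : ℝ) + 1 - g)) • (δ - δ') -
        (p.h * ((e : ℝ) - e')) • δ'‖ ≤ (2 * C + 2) * p.xi m := by
    refine (norm_sub_le _ _).trans ?_
    have := norm_sub_le (p.Pos om g e - p.Pos om' g e') ((p.h * ((e : ℝ) + 1 - g)) • (δ - δ'))
    linarith only [hdP, b1, b2, this]
  have b4 : ‖(p.Pos om g e - p.Pos om' g e') - (p.h * ((e : ℝ) + 1 - g)) • (δ - δ') -
        (p.h * ((e : ℝ) - e')) • δ'‖ / p.xi m ≤ 2 * C + 2 := by
    rw [div_le_iff₀ hxi]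
    exact b3
  linarith only [h2nc, hNr, b4]

end KDB.I.D13
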